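import Pool.Agent.Helper65.KH.Goals

/-!
# KH: the goal `RA` (factors of a regular system)
-/

set_option autoImplicit false

open MvPolynomial

namespace Pool.Agent.Helper50.KH.RA

open Pool.Agent.Helper65.KH

/-- One place. -/
theorem one {ι : Type} [Fintype ι] [DecidableEq ι] {H : ι → MvPolynomial ι ℚ} (hH : RS H)
    (i0 : ι) {a b : MvPolynomial ι ℚ} (hab : H i0 = a * b) : RS (Function.update H i0 a) := by
  have himg : ∀ S : Finset ι, i0 ∉ S → Function.update H i0 a '' (S : Set ι) = H '' (S : Set ι) := by
    intro S hS
    refine Set.image_congr fun j hj => ?_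
    refine Function.update_of_ne ?_ _ _
    rintro rfl
    exact hS (Finset.mem_coe.mp hj)
  intro T i hi
  by_cases hT : i0 ∈ T
  · -- third case
    have hne : i ≠ i0 := by
      rintro rfl
      exact hi hT
    have hTe : insert i0 (T.erase i0) = T := Finset.insert_erase hT
    have hn : i0 ∉ T.erase i0 := Finset.notMem_erase _ _
    set Q : Ideal (MvPolynomial ι ℚ) := Ideal.span (H '' ((T.erase i0 : Finset ι) : Set ι)) with hQ
    have e1 : Ideal.span (Function.update H i0 a '' (T : Set ι)) = Ideal.span {a} ⊔ Q := by
      rw [← hTe, Finset.coe_insert, Set.image_insert_eq, himg _ hn, Ideal.span_insert,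
        Function.update_self]
    have e2 : Ideal.span (H '' (T : Set ι)) = Ideal.span {a * b} ⊔ Q := by
      rw [← hTe, Finset.coe_insert, Set.image_insert_eq, Ideal.span_insert, hab]
    intro M'
    obtain ⟨M1, hM1⟩ := hH (T.erase i0) i0 hn M'
    obtain ⟨M2, hM2⟩ := hH T i hi M1
    refine ⟨M2, fun f hf => ?_⟩
    rw [e1, Function.update_of_ne hne, sup_assoc] at hf
    rw [e2, sup_assoc, sup_assoc] at hM2
    rw [hab] at hM1
    rw [e1, sup_assoc]
    obtain ⟨x, hx, r, hr, hxr⟩ := Submodule.mem_sup.mp hf
    obtain ⟨u, rfl⟩ := Ideal.mem_span_singleton'.mp hx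
    have h3 : H i * (b * f) ∈ Ideal.span {a * b} ⊔ (Q ⊔ mm ι M2) := by
      have h4 : H i * (b * f) = u * (a * b) + b * r := by
        have h5 : H i * (b * f) = b * (H i * f) := by ring
        rw [h5, ← hxr]
        ring
      rw [h4]
      exact Ideal.add_mem _ (Ideal.mem_sup_left (Ideal.mem_span_singleton'.mpr ⟨u, rfl⟩))
        (Ideal.mem_sup_right (Ideal.mul_mem_left _ _ hr))
    obtain ⟨y, hy, r', hr', hyr⟩ := Submodule.mem_sup.mp (hM2 _ h3)
    obtain ⟨v, rfl⟩ := Ideal.mem_span_singleton'.mp hy
    have h6 : a * b * (f - v * a) ∈ Q ⊔ mm ι M1 := by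
      have h7 : a * b * (f - v * a) = a * r' := by
        have h8 : r' = b * f - v * (a * b) := by
          rw [← hyr]
          ring
        rw [h8]
        ring
      rw [h7]
      exact Ideal.mul_mem_left _ _ hr'
    have h9 := hM1 _ h6
    have h10 : f = v * a + (f - v * a) := by ring
    rw [h10]
    exact Ideal.add_mem _ (Ideal.mem_sup_left (Ideal.mem_span_singleton'.mpr ⟨v, rfl⟩))
      (Ideal.mem_sup_right h9)
  · rw [himg T hT]
    by_cases hii : i = i0
    · subst hii
      rw [Function.update_self]
      intro M'
      obtain ⟨M, hM⟩ := hH T i hi M'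
      refine ⟨M, fun f hf => hM f ?_⟩
      have h1 : H i * f = b * (a * f) := by
        rw [hab]
        ring
      rw [h1]
      exact Ideal.mul_mem_left _ _ hf
    · rw [Function.update_of_ne hii]
      exact hH T i hi

theorem t : S_RA := by
  intro ι _ _ H a hH hdvd
  have key : ∀ s : Finset ι, RS (fun j => if j ∈ s then a j else H j) := by
    intro s
    induction s using Finset.induction_on with
    | empty =>
      simpa using hH
    | insert i0 s hi0 ih =>
      obtain ⟨b, hb⟩ := hdvd i0
      have h1 := one ih i0 (a := a i0) (b := b) (by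
        simp only [if_neg hi0]
        exact hb)
      have h2 : Function.update (fun j => if j ∈ s then a j else H j) i0 (a i0) =
          fun j => if j ∈ insert i0 s then a j else H j := by
        funext j
        by_cases hj : j = i0
        · subst hj
          simp
        · rw [Function.update_of_ne hj]
          simp only [Finset.mem_insert, hj, false_or]
      rw [h2] at h1
      exact h1
  have h := key Finset.univ
  simpa using h

end Pool.Agent.Helper50.KH.RA
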